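import Mathlib

/-!
# MP_1707ab_an, n = 2: common definitions and the three master Specs

Text: /team-store/MP_1707ab_an_PROOF.md.
`Net X δ`    : finite planar network (Part A, A.0)
`Fields L δ` : macroscopic fields (Part H, H.0)
`SpecA`, `SpecH`, `SpecM` : the three parts.
-/

set_option autoImplicit false

open scoped Topology BigOperators Classical
open MeasureTheory

namespace MP1707

/-- A finite planar network in `|Re| ≤ X`, `0 < Im < 1`.  A chain `e` has nodes `z e 0, …, z e (m e)`,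
1-jets `(j0, j1)` at the nodes and carries the affine flow `x ↦ a e * x + b e`. -/
structure Net (X δ : ℝ) where
  E : Type
  [fE : Fintype E]
  m : E → ℕ
  z : E → ℕ → ℂ
  j0 : E → ℕ → ℂ
  j1 : E → ℕ → ℂ
  a : E → ℂ
  b : E → ℂ
  hm : ∀ e, 1 ≤ m e
  /-- (N1) -/
  ne : ∀ e i, i < m e → z e (i + 1) ≠ z e i
  len : ∀ e i, i < m e → ‖z e (i + 1) - z e i‖ ≤ 1
  /-- (N2) planarity -/
  planar : ∀ e i e' i', i < m e → i' < m e' → (e, i) ≠ (e', i') →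
    ∀ x ∈ segment ℝ (z e i) (z e (i + 1)), x ∈ segment ℝ (z e' i') (z e' (i' + 1)) →
      (x = z e i ∨ x = z e (i + 1)) ∧ (x = z e' i' ∨ x = z e' (i' + 1))
  /-- (N3) -/
  jet : ∀ e i e' i', i ≤ m e → i' ≤ m e' → z e i = z e' i' → j0 e i = j0 e' i' ∧ j1 e i = j1 e' i'
  /-- (N4) -/
  j0b : ∀ e i, i ≤ m e → ‖j0 e i‖ ≤ 1 / 2
  j1b : ∀ e i, i ≤ m e → ‖j1 e i‖ ≤ 1 / 2
  herm : ∀ e i, i < m e →
    ‖j0 e (i + 1) - j0 e i - j1 e i * (z e (i + 1) - z e i)‖ ≤ 1 / 100 * ‖z e (i + 1) - z e i‖ ^ 2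
  herm' : ∀ e i, i < m e →
    ‖j0 e i - j0 e (i + 1) - j1 e (i + 1) * (z e i - z e (i + 1))‖ ≤ 1 / 100 * ‖z e (i + 1) - z e i‖ ^ 2
  /-- (N5) -/
  re_le : ∀ e i, i ≤ m e → |(z e i).re| ≤ X
  im_pos : ∀ e i, i ≤ m e → 0 < (z e i).im
  im_lt : ∀ e i, i ≤ m e → (z e i).im < 1
  start_lt : ∀ e, (z e 0).re < X
  end_gt : ∀ e, -X < (z e (m e)).re
  /-- (N6) Kirchhoff -/
  kirA : ∀ P : ℂ, |P.re| < X →
    ∑ e, (if z e 0 = P then a e else 0) = ∑ e, (if z e (m e) = P then a e else 0)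
  kirB : ∀ P : ℂ, |P.re| < X →
    ∑ e, (if z e 0 = P then b e else 0) = ∑ e, (if z e (m e) = P then b e else 0)
  /-- (N7) -/
  big : 1 ≤ ‖∑ e, (if (z e 0).re = -X then j1 e 0 * (a e * z e 0 + b e) - j0 e 0 * a e else 0)‖
  /-- (N8) -/
  cost : ∑ e, ∑ i ∈ Finset.range (m e), ‖z e (i + 1) - z e i‖ *
    max ‖a e * z e i + b e‖ ‖a e * z e (i + 1) + b e‖ ≤ δ
  /-- (N9) -/
  leftA : ∑ e, (if (z e 0).re = -X then a e else 0) = 0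
  leftB : ∑ e, (if (z e 0).re = -X then b e else 0) = 0
  left : ∀ t : ℝ, 0 ≤ t → t ≤ 1 →
    ‖∑ e, (if (z e 0).re = -X ∧ (z e 0).im ≤ t then a e * (⟨-X, t⟩ : ℂ) + b e else 0)‖ ≤ δ
  rightA : ∑ e, (if (z e (m e)).re = X then a e else 0) = 0
  rightB : ∑ e, (if (z e (m e)).re = X then b e else 0) = 0
  right : ∀ t : ℝ, 0 ≤ t → t ≤ 1 →
    ‖∑ e, (if (z e (m e)).re = X ∧ (z e (m e)).im ≤ t then a e * (⟨X, t⟩ : ℂ) + b e else 0)‖ ≤ δ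

attribute [instance] Net.fE

/-- Wirtinger derivative `∂/∂z`. -/
noncomputable def dz (f : ℂ → ℂ) (z : ℂ) : ℂ :=
  (fderiv ℝ f z 1 - Complex.I * fderiv ℝ f z Complex.I) / 2

/-- Wirtinger derivative `∂/∂z̄`. -/
noncomputable def dzb (f : ℂ → ℂ) (z : ℂ) : ℂ :=
  (fderiv ℝ f z 1 + Complex.I * fderiv ℝ f z Complex.I) / 2

/-- `ω = dc - F dV_z` as a real linear map. -/
noncomputable def om (V c F : ℂ → ℂ) (z : ℂ) : ℂ →L[ℝ] ℂ :=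
  fderiv ℝ c z - F z • fderiv ℝ (dz V) z

/-- the box -/
def K (L : ℝ) : Set ℂ := {z | |z.re| ≤ L + 2 ∧ 0 ≤ z.im ∧ z.im ≤ 1}

/-- Macroscopic fields. -/
structure Fields (L δ : ℝ) where
  V : ℂ → ℂ
  c : ℂ → ℂ
  F : ℂ → ℂ
  hV : ContDiff ℝ 2 V
  hc : ContDiff ℝ 1 c
  hF : ContDiff ℝ 1 F
  /-- (F1) -/
  loc : ∀ z ∈ K L, (∃ r > 0, DifferentiableOn ℂ V (Metric.ball z r)) ∨
    (∃ r > 0, ∃ f0 k0 : ℂ, ∀ ζ ∈ Metric.ball z r, F ζ = f0 ∧ c ζ = f0 * dz V ζ + k0)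
  /-- (F2) -/
  bot : ∀ z ∈ K L, z.im < 1 / 16 → V z = 0 ∧ F z = 0 ∧ c z = 0
  top : ∀ z ∈ K L, 15 / 16 < z.im → V z = 0 ∧ F z = 0 ∧ c z = 1
  /-- (F3) -/
  bF : ∀ z ∈ K L, ‖F z‖ ≤ 1 / 4
  bV : ∀ z ∈ K L, ‖V z‖ ≤ δ
  /-- (F4) -/
  cost : ∫ z in K L, (‖om V c F z‖ + ‖dzb V z‖) * (1 + ‖fderiv ℝ F z‖) ≤ δ

/-- The statement of the frozen negation `S03924`. -/
def Goal : Prop :=
    ¬ (∀ A : Set ℂ → ℕ → Set (ℂ → ℂ),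
      (∀ (T : Set ℂ) (n : ℕ) (f : ℂ → ℂ), f ∈ A T n ↔
        (DifferentiableOn ℂ f Tᶜ ∧
          ∀ k ≤ n, ∃ g : ℂ → ℂ, ContinuousOn g (Tᶜ ∪ frontier T) ∧
            Set.EqOn g (iteratedDeriv k f) Tᶜ)) →
      ∀ (S S₁ S₂ : Set ℂ), IsClosed S → IsClosed S₁ → IsClosed S₂ → S = S₁ ∪ S₂ →
        (∀ z ∈ S, (∃ U ∈ 𝓝 z, U ∩ S ⊆ S₁) ∨ (∃ U ∈ 𝓝 z, U ∩ S ⊆ S₂)) →
        ∀ n : ℕ, 1 ≤ n →
          ∀ f : ℂ → ℂ, (f ∈ A S n ↔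
            ∃ f₁ ∈ A S₁ n, ∃ f₂ ∈ A S₂ n, Set.EqOn f (f₁ + f₂) Sᶜ))

/-- PART A -/
def SpecA : Prop :=
  (∀ L δ : ℝ, 1 ≤ L → 0 < δ → ∃ X : ℝ, L ≤ X ∧ X ≤ L + 1 ∧ Nonempty (Net X δ)) → Goal

/-- PART H -/
def SpecH : Prop :=
  ∃ C : ℝ, 0 < C ∧ ∀ L δ : ℝ, 1 ≤ L → 0 < δ → δ ≤ 1 → Nonempty (Fields L δ) →
    ∃ X : ℝ, L ≤ X ∧ X ≤ L + 1 ∧ Nonempty (Net X (C * δ))

/-- PART M -/
def SpecM : Prop := ∀ L δ : ℝ, 1 ≤ L → 0 < δ → Nonempty (Fields L δ)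

theorem goal_of (hA : SpecA) (hH : SpecH) (hM : SpecM) : Goal := by
  obtain ⟨C, hC, hH⟩ := hH
  refine hA fun L δ hL hδ => ?_
  have h1 : 0 < min 1 (δ / C) := lt_min one_pos (by positivity)
  obtain ⟨X, hX1, hX2, ⟨N⟩⟩ := hH L (min 1 (δ / C)) hL h1 (min_le_left _ _) (hM L _ hL h1)
  have h2 : C * min 1 (δ / C) ≤ δ := by
    have := min_le_right 1 (δ / C)
    calc C * min 1 (δ / C) ≤ C * (δ / C) := by gcongr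
      _ = δ := by field_simp
  refine ⟨X, hX1, hX2, ⟨{ N with
    cost := N.cost.trans h2
    left := fun t h h' => (N.left t h h').trans h2
    right := fun t h h' => (N.right t h h').trans h2 }⟩⟩

end MP1707
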