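import Pool.Agent.Lib.MP_1707ab_an.N2.H.Chain
import Pool.Agent.Lib.MP_1707ab_an.N2.H.NetAsm
import Pool.Agent.Lib.MP_1707ab_an.N2.H.CutB
import Pool.Agent.Lib.MP_1707ab_an.N2.H.Tele
import Pool.Agent.Lib.MP_1707ab_an.N2.H.DiscB

/-!
# MP_1707ab_an, n = 2: PART H is complete
-/

set_option autoImplicit false

namespace MP1707

/-- PART H: macroscopic fields give planar networks -/
theorem specH : SpecH :=
  H.specH_of
    (H.specNet H.specChain H.specLeaf H.specCut (H.specPlan H.specChain H.specLeaf H.specCut) H.specKir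
      H.specTele)
    (H.specDisc (H.DiscM.specChoice H.specLoc H.specRiem) H.specModel (H.specEdge H.specModel))

end MP1707
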