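import Pool.Agent.Lib.MP_1707ab_an.N2.M.NearE
import Pool.Agent.Lib.MP_1707ab_an.N2.M.Zeta
import Pool.Agent.Lib.MP_1707ab_an.N2.M.Hex
import Pool.Agent.Lib.MP_1707ab_an.N2.M.Alg
import Pool.Agent.Lib.MP_1707ab_an.N2.M.AreaE
import Pool.Agent.Lib.MP_1707ab_an.N2.M.Psi
import Pool.Agent.Lib.MP_1707ab_an.N2.M.Cut
import Pool.Agent.Lib.MP_1707ab_an.N2.M.Loc
import Pool.Agent.Lib.MP_1707ab_an.N2.M.PtF

/-!
# MP_1707ab_an, n = 2: PART M is complete
-/

set_option autoImplicit false

namespace MP1707

/-- PART M: macroscopic fields exist -/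
theorem specM : SpecM :=
  specMMain specEnv
    (specCell (specEll0 specZeta specHex) specODE (specAlg specODE) specZset specNearE specFarE
      (specAreaE specODE))
    (specSm specPsi) specLoc (specWall specPsi)
    (specCost (specPtA specPsi) (specPtB specCut (specSm specPsi)) (specPtC specCut)
      (specPtD specCut specPsi) (specPtE specCut specVder specPsi) (specPtF specCut specVder) specPtG
      specVder)

end MP1707
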