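import Pool.Agent.Lib.MP_1707ab_an.N2.A.AMain
import Pool.Agent.Lib.MP_1707ab_an.N2.A.Thin
import Pool.Agent.Lib.MP_1707ab_an.N2.PartH
import Pool.Agent.Lib.MP_1707ab_an.N2.PartM

section
/-!
# MP_1707ab_an, n = 2: PART A is complete
-/
set_option autoImplicit false

namespace MP1707

/-- PART A: planar networks imply the frozen negation -/
theorem specA : SpecA := specAMain specRho specThin specQuint specSegm specFlux specLine specGlue

end MP1707
end

section
/-!
# MP_1707ab_an, n = 2: the splitting property is false
-/
set_option autoImplicit false

namespace MP1707

theorem goal : Goal := goal_of specA specH specM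

end MP1707
end
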