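import Pool.Agent.Lib.MP_1707ab_an.N2.Defs

/-!
# MP_1707ab_an, n = 2, PART A (networks imply the frozen statement): exact Specs of the modules

Text: /team-store/MP_1707ab_an_PROOF.md, Part A.  File of a module: `N2/A/<Name>.lean`,
theorem `MP1707.spec<Name> (hyps : other Specs) : Spec<Name>`.
-/

set_option autoImplicit false

open scoped Topology BigOperators Classical
open MeasureTheory

namespace MP1707

/-- complex coordinate along the segment `[p,q]` -/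
noncomputable def tc (p q z : ℂ) : ℂ := (z - p) / (q - p)

/-- open rhombus -/
def rho (ε : ℝ) (p q : ℂ) : Set ℂ :=
  {z | |(tc p q z).im| < ε * min (tc p q z).re (1 - (tc p q z).re)}

/-- closed rhombus -/
def crho (ε : ℝ) (p q : ℂ) : Set ℂ :=
  {z | |(tc p q z).im| ≤ ε * min (tc p q z).re (1 - (tc p q z).re)}

/-- RHO (A.2, elementary properties of rhombi) -/
def SpecRho : Prop := ∀ (ε : ℝ) (p q : ℂ), 0 < ε → p ≠ q →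
  IsOpen (rho ε p q) ∧ closure (rho ε p q) = crho ε p q ∧ IsCompact (crho ε p q) ∧
  (∀ t : ℝ, 0 < t → t < 1 → p + t * (q - p) ∈ rho ε p q) ∧
  segment ℝ p q ⊆ crho ε p q ∧
  (∀ ε' : ℝ, ε ≤ ε' → crho ε p q ⊆ crho ε' p q) ∧
  (∀ z ∈ crho ε p q, ∃ x ∈ segment ℝ p q, ‖z - x‖ ≤ ε * ‖q - p‖)

/-- THIN (A.2): thin rhombi of a planar finite family of segments only meet at common endpoints -/
def SpecThin : Prop := ∀ (ι : Type) [Finite ι] (p q : ι → ℂ) (O : Set ℂ), IsOpen O →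
  (∀ i, p i ≠ q i) → (∀ i, segment ℝ (p i) (q i) ⊆ O) →
  (∀ i j, i ≠ j → ∀ x ∈ segment ℝ (p i) (q i), x ∈ segment ℝ (p j) (q j) →
    (x = p i ∨ x = q i) ∧ (x = p j ∨ x = q j)) →
  ∃ ε : ℝ, 0 < ε ∧ ε ≤ 1 / 10 ∧ (∀ i, crho ε (p i) (q i) ⊆ O) ∧
    ∀ i j, i ≠ j → ∀ x ∈ crho ε (p i) (q i), x ∈ crho ε (p j) (q j) →
      (x = p i ∨ x = q i) ∧ (x = p j ∨ x = q j)

/-- QUINT (A.1) -/
def SpecQuint : Prop := ∀ (p q f0 f1 g0 g1 : ℂ), p ≠ q → ‖q - p‖ ≤ 1 → ‖f0‖ ≤ 1 / 2 → ‖f1‖ ≤ 1 / 2 →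
  ‖g0 - f0 - f1 * (q - p)‖ ≤ 1 / 100 * ‖q - p‖ ^ 2 →
  ‖f0 - g0 - g1 * (p - q)‖ ≤ 1 / 100 * ‖q - p‖ ^ 2 →
  ∃ P : Polynomial ℂ,
    P.eval p = f0 ∧ P.derivative.eval p = f1 ∧ P.derivative.derivative.eval p = 0 ∧
    P.eval q = g0 ∧ P.derivative.eval q = g1 ∧ P.derivative.derivative.eval q = 0 ∧
    ∀ z ∈ crho (1 / 10) p q,
      ‖P.eval z‖ ≤ 2 ∧ ‖P.derivative.eval z‖ ≤ 2 ∧ ‖P.derivative.derivative.eval z‖ ≤ 2

/-- SEGM (A.4): integration by parts along one segment -/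
def SpecSegm : Prop := ∀ (p q a b : ℂ) (M : ℝ) (U0 U1 U2 : ℂ → ℂ),
  ContinuousOn (fun t : ℝ => U0 (p + t * (q - p))) (Set.Icc 0 1) →
  ContinuousOn (fun t : ℝ => U1 (p + t * (q - p))) (Set.Icc 0 1) →
  ContinuousOn (fun t : ℝ => U2 (p + t * (q - p))) (Set.Icc 0 1) →
  (∀ t : ℝ, 0 < t → t < 1 → HasDerivAt U0 (U1 (p + t * (q - p))) (p + t * (q - p))) →
  (∀ t : ℝ, 0 < t → t < 1 → HasDerivAt U1 (U2 (p + t * (q - p))) (p + t * (q - p))) →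
  (∀ t : ℝ, 0 ≤ t → t ≤ 1 → ‖U2 (p + t * (q - p))‖ ≤ M) →
  ‖(U1 q * (a * q + b) - U0 q * a) - (U1 p * (a * p + b) - U0 p * a)‖ ≤
    M * ‖q - p‖ * max ‖a * p + b‖ ‖a * q + b‖

/-- the functional at the left / right boundary of a network -/
noncomputable def TL {X δ : ℝ} (N : Net X δ) (U0 U1 : ℂ → ℂ) : ℂ :=
  ∑ e, (if (N.z e 0).re = -X then U1 (N.z e 0) * (N.a e * N.z e 0 + N.b e) - U0 (N.z e 0) * N.a e else 0)

noncomputable def TR {X δ : ℝ} (N : Net X δ) (U0 U1 : ℂ → ℂ) : ℂ :=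
  ∑ e, (if (N.z e (N.m e)).re = X then
    U1 (N.z e (N.m e)) * (N.a e * N.z e (N.m e) + N.b e) - U0 (N.z e (N.m e)) * N.a e else 0)

/-- FLUX (A.4): Kirchhoff + telescoping -/
def SpecFlux : Prop := ∀ (X δ : ℝ) (N : Net X δ) (U0 U1 : ℂ → ℂ) (M : ℝ), 0 ≤ M →
  (∀ e i, i < N.m e →
    ‖(U1 (N.z e (i + 1)) * (N.a e * N.z e (i + 1) + N.b e) - U0 (N.z e (i + 1)) * N.a e) -
      (U1 (N.z e i) * (N.a e * N.z e i + N.b e) - U0 (N.z e i) * N.a e)‖ ≤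
      M * ‖N.z e (i + 1) - N.z e i‖ * max ‖N.a e * N.z e i + N.b e‖ ‖N.a e * N.z e (i + 1) + N.b e‖) →
  ‖TR N U0 U1 - TL N U0 U1‖ ≤ M * δ

/-- LINE (A.4, line lemma) -/
def SpecLine : Prop := ∀ (X δ : ℝ) (N : Net X δ) (u : ℂ → ℂ) (U : Set ℂ) (M : ℝ), 0 ≤ M → IsOpen U →
  DifferentiableOn ℂ u U →
  ((∀ t : ℝ, 0 ≤ t → t ≤ 1 → (⟨-X, t⟩ : ℂ) ∈ U ∧ ‖deriv (deriv u) ⟨-X, t⟩‖ ≤ M) →
    ‖TL N u (deriv u)‖ ≤ M * δ) ∧
  ((∀ t : ℝ, 0 ≤ t → t ≤ 1 → (⟨X, t⟩ : ℂ) ∈ U ∧ ‖deriv (deriv u) ⟨X, t⟩‖ ≤ M) →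
    ‖TR N u (deriv u)‖ ≤ M * δ)

/-- GLUE (A.3): the piecewise polynomial function is in `A²` -/
def SpecGlue : Prop := ∀ (J : ℕ → Type) [∀ k, Finite (J k)] (R : (k : ℕ) → J k → Set ℂ)
  (P : (k : ℕ) → J k → Polynomial ℂ),
  (∀ k i, IsOpen (R k i)) →
  (∀ k i, closure (R k i) ⊆ {z | |z.re| ≤ 2 ∧ (1 / 2 : ℝ) ^ (k + 1) < z.im ∧ z.im < (1 / 2 : ℝ) ^ k}) →
  (∀ k i j, i ≠ j → Disjoint (R k i) (R k j)) →
  (∀ k i j, ∀ x ∈ closure (R k i), x ∈ closure (R k j) →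
    (P k i).eval x = (P k j).eval x ∧ (P k i).derivative.eval x = (P k j).derivative.eval x ∧
    (P k i).derivative.derivative.eval x = (P k j).derivative.derivative.eval x) →
  (∀ k i, ∀ x ∈ closure (R k i), ‖(P k i).eval x‖ ≤ 2 * (1 / 2 : ℝ) ^ k ∧
    ‖(P k i).derivative.eval x‖ ≤ 2 * (1 / 2 : ℝ) ^ k ∧
    ‖(P k i).derivative.derivative.eval x‖ ≤ 2 * (1 / 2 : ℝ) ^ k) →
  ∃ f : ℂ → ℂ, DifferentiableOn ℂ f (⋃ k, ⋃ i, R k i) ∧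
    ∀ n ≤ 2, ∃ g : ℂ → ℂ, ContinuousOn g (closure (⋃ k, ⋃ i, R k i)) ∧
      Set.EqOn g (iteratedDeriv n f) (⋃ k, ⋃ i, R k i) ∧
      ∀ k i, ∀ x ∈ closure (R k i), g x = (Polynomial.derivative^[n] (P k i)).eval x

/-- AMAIN is the assembly: `specA : SpecRho → SpecThin → SpecQuint → SpecSegm → SpecFlux → SpecLine → SpecGlue → SpecA`. -/
def SpecAMain : Prop := SpecRho → SpecThin → SpecQuint → SpecSegm → SpecFlux → SpecLine → SpecGlue → SpecA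

end MP1707
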