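import Pool.Agent.Lib.MP_1707ab_an.N2.Defs

/-!
# MP_1707ab_an, n = 2, PART H: definitions and module Specs

Text: /team-store/MP_1707ab_an_H_h86.md.

Two halves:
* `SpecNet`  : finite discrete data `Disc` gives a planar network `Net` (chains, planarity, sums);
* `SpecDisc` : macroscopic fields `Fields` give discrete data `Disc` (local estimates).
-/

set_option autoImplicit false

open scoped Topology BigOperators Classical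
open MeasureTheory

namespace MP1707
namespace H

/-! ### the medium -/

/-- slopes `α_n(η)` -/
noncomputable def al (η : ℝ) (n : ℤ) : ℂ :=
  if n % 4 = 0 then ⟨3 / 4, 1 / (2 * η)⟩ else if n % 4 = 1 then ⟨1 / 4, 1 / (2 * η)⟩
  else if n % 4 = 2 then ⟨-(3 / 4), -(1 / (2 * η))⟩ else ⟨-(1 / 4), -(1 / (2 * η))⟩

/-- offsets `e_n(η)` -/
noncomputable def en (η : ℝ) (n : ℤ) : ℂ := if n % 2 = 0 then 0 else ⟨0, η⟩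

/-- left reference node of a leaf edge in column `n` -/
noncomputable def P1 (η : ℝ) (n : ℤ) : ℂ :=
  if n % 2 = 0 then ⟨1 / 2 - 1 / (2 * η), -(η / 2) - 1 / η + 1 / 4⟩
  else ⟨1 / 2 - η / (8 * (η ^ 2 + 1)), η / 4 - (3 * η ^ 2 + 2) / (8 * (η ^ 2 + 1))⟩

/-- right reference node of a leaf edge in column `n` -/
noncomputable def P2 (η : ℝ) (n : ℤ) : ℂ :=
  if n % 2 = 0 then ⟨1 / 2 + 1 / (2 * η), -(η / 2) - 1 / η - 3 / 4⟩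
  else ⟨1 / 2 + η / (8 * (η ^ 2 + 1)), η / 4 - (η ^ 2 + 2) / (8 * (η ^ 2 + 1))⟩

/-- lattice points `ζ(k,n)` -/
noncomputable def zt (σ : ℝ) (k n : ℤ) : ℂ := ⟨σ * n, σ * k / 2 + 1 / 32⟩

/-- vertices `v(k,n)` -/
noncomputable def vtx (σ : ℝ) (eta : ℤ → ℤ → ℝ) (k n : ℤ) : ℂ :=
  ⟨σ * n, σ * k / 2 + 1 / 32 - σ / 4 +
    (if n % 2 = 0 then σ * eta (if (k + n) % 2 = 0 then k - 1 else k) n else 0)⟩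

/-- reference hinge of the leaf edge `(k,n)` -/
noncomputable def hrL (σ : ℝ) (eta : ℤ → ℤ → ℝ) (k n : ℤ) : ℂ :=
  zt σ k n + σ * (if (k + n) % 2 = 0 then P1 (eta k n) n else P2 (eta k n) n)

/-- reference hinge of the cut edge `(k,n)`, `k + n` odd -/
noncomputable def hrC (σ : ℝ) (eta : ℤ → ℤ → ℝ) (k n : ℤ) : ℂ :=
  zt σ k n + σ * en (eta k n) (n + 1)

/-- Finite discrete data.  `a k n, b k n, c k n`: face data (flow `x ↦ a x + b`, constant `c`) of ribbon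
`k` in column `n`.  Leaf edge `(k,n)`, `0 ≤ k ≤ K`, `-N ≤ n < N`: from `v(k,n)` to `v(k,n+1)`, flow
`(k,n) - (k-1,n)`.  Cut edge `(k,n)`, `0 ≤ k < K`, `-N < n < N`, `k + n` odd: from `v(k,n)` to
`v(k+1,n)`, flow `(k,n-1) - (k,n)`. -/
structure Disc (Em σ τ δ : ℝ) (K N : ℤ) where
  eta : ℤ → ℤ → ℝ
  a : ℤ → ℤ → ℂ
  b : ℤ → ℤ → ℂ
  c : ℤ → ℤ → ℂ
  hL : ℤ → ℤ → ℂ
  fL : ℤ → ℤ → ℂ
  hC : ℤ → ℤ → ℂ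
  fC : ℤ → ℤ → ℂ
  j0 : ℤ → ℤ → ℂ
  j1 : ℤ → ℤ → ℂ
  gL : ℤ → ℤ → Prop
  gC : ℤ → ℤ → Prop
  S : ℤ → ℤ → ℝ
  eta_ge : ∀ k n, -1 ≤ k → k ≤ K + 1 → -N - 1 ≤ n → n ≤ N + 1 → 3 ≤ eta k n
  eta_le : ∀ k n, -1 ≤ k → k ≤ K + 1 → -N - 1 ≤ n → n ≤ N + 1 → eta k n ≤ Em
  eta_close : ∀ k n k' n', -1 ≤ k → k ≤ K + 1 → -N - 1 ≤ n → n ≤ N + 1 →
    -1 ≤ k' → k' ≤ K + 1 → -N - 1 ≤ n' → n' ≤ N + 1 →
    |(k' : ℝ) - k| ≤ 40 * Em → |(n' : ℝ) - n| ≤ 1 → |eta k' n' - eta k n| ≤ τ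
  para : ∀ k n, (k + n) % 2 = 0 → a k n = a k (n - 1)
  parb : ∀ k n, (k + n) % 2 = 0 → b k n = b k (n - 1)
  parc : ∀ k n, (k + n) % 2 = 0 → c k n = c k (n - 1)
  nega : ∀ k n, k < 0 → a k n = 0
  negb : ∀ k n, k < 0 → b k n = 0
  negc : ∀ k n, k < 0 → c k n = 0
  topa : ∀ k n, K ≤ k → a k n = 0
  topb : ∀ k n, K ≤ k → b k n = 0
  topc : ∀ k n, K ≤ k → c k n = 1
  hL_near : ∀ k n, 0 ≤ k → k ≤ K → -N ≤ n → n < N → ‖hL k n - hrL σ eta k n‖ ≤ τ * σ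
  hC_near : ∀ k n, 0 ≤ k → k < K → -N < n → n < N → (k + n) % 2 = 1 →
    ‖hC k n - hrC σ eta k n‖ ≤ τ * σ
  relL : ∀ k n, 0 ≤ k → k ≤ K → -N ≤ n → n < N →
    j0 k n = fL k n + j1 k n * (vtx σ eta k n - hL k n)
  relL' : ∀ k n, 0 ≤ k → k ≤ K → -N ≤ n → n < N →
    j0 k (n + 1) = fL k n + j1 k (n + 1) * (vtx σ eta k (n + 1) - hL k n)
  relC : ∀ k n, 0 ≤ k → k < K → -N < n → n < N → (k + n) % 2 = 1 →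
    j0 k n = fC k n + j1 k n * (vtx σ eta k n - hC k n)
  relC' : ∀ k n, 0 ≤ k → k < K → -N < n → n < N → (k + n) % 2 = 1 →
    j0 (k + 1) n = fC k n + j1 (k + 1) n * (vtx σ eta (k + 1) n - hC k n)
  goodL : ∀ k n, 0 ≤ k → k ≤ K → -N ≤ n → n < N → gL k n →
    (a k n - a (k - 1) n) * hL k n + (b k n - b (k - 1) n) = 0
  badL : ∀ k n, 0 ≤ k → k ≤ K → -N ≤ n → n < N → ¬ gL k n → j1 k n = 0 ∧ j1 k (n + 1) = 0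
  goodC : ∀ k n, 0 ≤ k → k < K → -N < n → n < N → (k + n) % 2 = 1 → gC k n →
    (a k (n - 1) - a k n) * hC k n + (b k (n - 1) - b k n) = 0
  badC : ∀ k n, 0 ≤ k → k < K → -N < n → n < N → (k + n) % 2 = 1 → ¬ gC k n →
    j1 k n = 0 ∧ j1 (k + 1) n = 0
  j0b : ∀ k n, 0 ≤ k → k ≤ K → -N ≤ n → n ≤ N → ‖j0 k n‖ ≤ 3 / 8
  j1b : ∀ k n, 0 ≤ k → k ≤ K → -N ≤ n → n ≤ N → ‖j1 k n‖ ≤ 3 / 8
  left : ∀ k, 0 ≤ k → k ≤ K →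
    j1 k (-N) * ((a k (-N) - a (k - 1) (-N)) * vtx σ eta k (-N) + (b k (-N) - b (k - 1) (-N))) -
      j0 k (-N) * (a k (-N) - a (k - 1) (-N)) = -(c k (-N) - c (k - 1) (-N))
  bdl : ∀ k, 0 ≤ k → k < K → ∀ t, (vtx σ eta k (-N)).im ≤ t → t ≤ (vtx σ eta (k + 1) (-N)).im →
    ‖a k (-N) * (⟨-(σ * N), t⟩ : ℂ) + b k (-N)‖ ≤ δ
  bdr : ∀ k, 0 ≤ k → k < K → ∀ t, (vtx σ eta k N).im ≤ t → t ≤ (vtx σ eta (k + 1) N).im →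
    ‖a k (N - 1) * (⟨σ * N, t⟩ : ℂ) + b k (N - 1)‖ ≤ δ
  SL : ∀ k n, 0 ≤ k → k ≤ K → -N ≤ n → n < N → ∀ x, ‖x - zt σ k n‖ ≤ 3 * eta k n * σ →
    ‖(a k n - a (k - 1) n) * x + (b k n - b (k - 1) n)‖ ≤ S k n
  SC : ∀ k n, 0 ≤ k → k < K → -N < n → n < N → (k + n) % 2 = 1 →
    ∀ x, ‖x - zt σ k n‖ ≤ 3 * eta k n * σ →
    ‖(a k (n - 1) - a k n) * x + (b k (n - 1) - b k n)‖ ≤ S k n
  S_nonneg : ∀ k n, 0 ≤ S k n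
  cost : ∑ k ∈ Finset.Icc 0 K, ∑ n ∈ Finset.Icc (-N) N, 10 * eta k n * σ * S k n ≤ δ

/-- first half -/
def SpecNet : Prop := ∀ (Em σ τ δ : ℝ) (K N : ℤ), 3 ≤ Em → 0 < σ → 0 < τ → 0 < δ →
  τ * Em ≤ 1 / 10000 → σ * Em ≤ 1 / 1000 → 1 ≤ K → σ * K ≤ 15 / 8 → 1 ≤ N →
  Nonempty (Disc Em σ τ δ K N) → Nonempty (Net (σ * N) (2 * δ))

/-- second half -/
def SpecDisc : Prop := ∃ C : ℝ, 0 < C ∧ ∀ L δ : ℝ, 1 ≤ L → 0 < δ → δ ≤ 1 → Nonempty (Fields L δ) →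
  ∃ Em : ℝ, 3 ≤ Em ∧ ∀ τ : ℝ, 0 < τ → ∃ (σ : ℝ) (K N : ℤ), 0 < σ ∧ σ * Em ≤ 1 / 1000 ∧
    1 ≤ K ∧ σ * K ≤ 15 / 8 ∧ 1 ≤ N ∧ L ≤ σ * N ∧ σ * N ≤ L + 1 ∧
    Nonempty (Disc Em σ τ (C * δ) K N)

theorem specH_of (h1 : SpecNet) (h2 : SpecDisc) : SpecH := by
  obtain ⟨C, hC, h2⟩ := h2
  refine ⟨2 * C, by positivity, fun L δ hL hδ hδ1 hF => ?_⟩
  obtain ⟨Em, hEm, h2⟩ := h2 L δ hL hδ hδ1 hF
  obtain ⟨σ, K, N, hσ, hσE, hK, hσK, hN, hLN, hNL, hD⟩ := h2 (1 / (10000 * Em)) (by positivity)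
  refine ⟨σ * N, hLN, hNL, ?_⟩
  have := h1 Em σ (1 / (10000 * Em)) (C * δ) K N hEm hσ (by positivity) (by positivity)
    (le_of_eq (by field_simp)) hσE hK hσK hN hD
  rwa [← mul_assoc] at this

/-! ### chains -/

/-- nodes of a chain: `v, a`, the `2M+1` gadget nodes around `h`, `b, v'` (`2M+4` segments) -/
noncomputable def cn (u v a h b v' : ℂ) (M : ℕ) (d ρ : ℝ) (i : ℕ) : ℂ :=
  if i = 0 then v else if i = 1 then a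
  else if i ≤ 2 * M + 2 then
    h + u * ((((i : ℝ) - 2 - M) * d : ℝ) : ℂ) + u * Complex.I * (((-1 : ℝ) ^ i * ρ : ℝ) : ℂ)
  else if i = 2 * M + 3 then b else v'

/-- slopes along a chain -/
noncomputable def cb (β β' : ℂ) (M : ℕ) (i : ℕ) : ℂ :=
  if i ≤ 1 then β else if i ≤ 2 * M + 2 then β + ((((i : ℝ) - 2) / (2 * M) : ℝ) : ℂ) * (β' - β) else β'

/-- coordinate in direction `u` -/
noncomputable def co (u z : ℂ) : ℝ := (starRingEnd ℂ u * z).re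

structure ChainOK (u v a h b v' f β β' : ℂ) (M : ℕ) (r ρ : ℝ) : Prop where
  hu : ‖u‖ = 1
  hr : 0 < r
  hr1 : r ≤ 1 / 100
  hM : 1 ≤ M
  hMr : 20 ≤ M * r
  hMr' : M * r ≤ 21
  hρ : ρ = r ∨ (ρ = 0 ∧ β = 0 ∧ β' = 0)
  o1 : co u v < co u a
  o2 : co u a < co u h - r
  o3 : co u h + r < co u b
  o4 : co u b < co u v'
  d1 : ‖v - h‖ ≤ 1 / 10
  d2 : ‖a - h‖ ≤ 1 / 10
  d3 : ‖b - h‖ ≤ 1 / 10
  d4 : ‖v' - h‖ ≤ 1 / 10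
  hf : ‖f‖ ≤ 7 / 16
  hβ : ‖β‖ ≤ 3 / 8
  hβ' : ‖β'‖ ≤ 3 / 8

/-- H-CHAIN -/
def SpecChain : Prop := ∀ (u v a h b v' f β β' : ℂ) (M : ℕ) (r ρ : ℝ),
  ChainOK u v a h b v' f β β' M r ρ →
  let z := cn u v a h b v' M (r / M) ρ
  let j1 := cb β β' M
  let j0 := fun i => f + j1 i * (z i - h)
  z 0 = v ∧ z (2 * M + 4) = v' ∧ j1 0 = β ∧ j1 (2 * M + 4) = β' ∧
  (∀ i, i < 2 * M + 4 → co u (z i) < co u (z (i + 1))) ∧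
  (∀ i, i < 2 * M + 4 → ‖z (i + 1) - z i‖ ≤ 1) ∧
  (∀ i, i ≤ 2 * M + 4 → ‖j0 i‖ ≤ 1 / 2 ∧ ‖j1 i‖ ≤ 1 / 2) ∧
  (∀ i, i < 2 * M + 4 →
    ‖j0 (i + 1) - j0 i - j1 i * (z (i + 1) - z i)‖ ≤ 1 / 100 * ‖z (i + 1) - z i‖ ^ 2 ∧
    ‖j0 i - j0 (i + 1) - j1 (i + 1) * (z i - z (i + 1))‖ ≤ 1 / 100 * ‖z (i + 1) - z i‖ ^ 2) ∧
  (∀ (A B : ℂ) (S : ℝ), (∀ i, i ≤ 2 * M + 4 → ‖A * z i + B‖ ≤ S) → (ρ = r → A * h + B = 0) →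
    ∑ i ∈ Finset.range (2 * M + 4), ‖z (i + 1) - z i‖ * max ‖A * z i + B‖ ‖A * z (i + 1) + B‖ ≤
      (‖a - v‖ + ‖h - a‖ + ‖b - h‖ + ‖v' - b‖ + 6 * r) * S + 252 * r * ‖A‖)

section nodes

variable {Em σ τ δ : ℝ} {K N : ℤ}

/-- node before the gadget of leaf edge `(k,n)` -/
noncomputable def aL (D : Disc Em σ τ δ K N) (k n : ℤ) : ℂ :=
  if (k + n) % 2 = 0 then (vtx σ D.eta k n + D.hL k n) / 2 else zt σ k n + σ * P1 (D.eta k n) n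

/-- node after the gadget of leaf edge `(k,n)` -/
noncomputable def bL (D : Disc Em σ τ δ K N) (k n : ℤ) : ℂ :=
  if (k + n) % 2 = 0 then zt σ k n + σ * P2 (D.eta k n) n
  else (D.hL k n + vtx σ D.eta k (n + 1)) / 2

/-- nodes of leaf edge `(k,n)` -/
noncomputable def nL (D : Disc Em σ τ δ K N) (r : ℝ) (M : ℕ) (k n : ℤ) (i : ℕ) : ℂ :=
  cn 1 (vtx σ D.eta k n) (aL D k n) (D.hL k n) (bL D k n) (vtx σ D.eta k (n + 1)) M (r / M)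
    (if D.gL k n then r else 0) i

/-- nodes of cut edge `(k,n)` -/
noncomputable def nC (D : Disc Em σ τ δ K N) (r : ℝ) (M : ℕ) (k n : ℤ) (i : ℕ) : ℂ :=
  cn Complex.I (vtx σ D.eta k n) ((vtx σ D.eta k n + D.hC k n) / 2) (D.hC k n)
    ((D.hC k n + vtx σ D.eta (k + 1) n) / 2) (vtx σ D.eta (k + 1) n) M (r / M)
    (if D.gC k n then r else 0) i

end nodes

/-- standing numerical hypotheses of the network half -/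
structure Num (Em σ τ δ : ℝ) (K N : ℤ) (r : ℝ) (M : ℕ) : Prop where
  hEm : 3 ≤ Em
  hσ : 0 < σ
  hτ : 0 < τ
  hδ : 0 < δ
  hτE : τ * Em ≤ 1 / 10000
  hσE : σ * Em ≤ 1 / 1000
  hK : 1 ≤ K
  hσK : σ * K ≤ 15 / 8
  hN : 1 ≤ N
  hr : 0 < r
  hrτ : r ≤ τ * σ
  hM : 1 ≤ M
  hMr : 20 ≤ M * r
  hMr' : M * r ≤ 21

/-- H-LEAF (geometry of one leaf chain) -/
def SpecLeaf : Prop := ∀ (Em σ τ δ : ℝ) (K N : ℤ) (r : ℝ) (M : ℕ), Num Em σ τ δ K N r M →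
  ∀ D : Disc Em σ τ δ K N,
  (∀ k n, 0 ≤ k → k ≤ K → -N ≤ n → n < N →
    ChainOK 1 (vtx σ D.eta k n) (aL D k n) (D.hL k n) (bL D k n) (vtx σ D.eta k (n + 1))
      (D.fL k n) (D.j1 k n) (D.j1 k (n + 1)) M r (if D.gL k n then r else 0) ∧
    ‖aL D k n - vtx σ D.eta k n‖ + ‖D.hL k n - aL D k n‖ + ‖bL D k n - D.hL k n‖ +
      ‖vtx σ D.eta k (n + 1) - bL D k n‖ ≤ 4 * D.eta k n * σ ∧
    (∀ i, i ≤ 2 * M + 4 → ‖nL D r M k n i - zt σ k n‖ ≤ 3 * D.eta k n * σ ∧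
      0 < (nL D r M k n i).im ∧ (nL D r M k n i).im < 1) ∧
    (∀ i, i < 2 * M + 4 → ∀ x ∈ segment ℝ (nL D r M k n i) (nL D r M k n (i + 1)),
      (x.re ≤ σ * n + σ / 8 → |x.im - (vtx σ D.eta k n).im| ≤ 7 * Em * (x.re - σ * n)) ∧
      (σ * (n + 1) - σ / 8 ≤ x.re →
        |x.im - (vtx σ D.eta k (n + 1)).im| ≤ 7 * Em * (σ * (n + 1) - x.re)))) ∧
  (∀ (n : ℤ) (η : ℝ), 3 ≤ η → ∃ lam : ℝ → ℝ, (∀ s s', |lam s - lam s'| ≤ 6 * η * |s - s'|) ∧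
    |lam 0| ≤ η ∧ ∀ k, 0 ≤ k → k ≤ K → -N ≤ n → n < N → |D.eta k n - η| ≤ τ →
      ∀ i, i < 2 * M + 4 → ∀ x ∈ segment ℝ (nL D r M k n i) (nL D r M k n (i + 1)),
        ∃ s, 0 ≤ s ∧ s ≤ 1 ∧ ‖x - (zt σ k n + σ * (⟨s, lam s⟩ : ℂ))‖ ≤ 10 * τ * σ)

/-- H-CUT (geometry of one cut chain) -/
def SpecCut : Prop := ∀ (Em σ τ δ : ℝ) (K N : ℤ) (r : ℝ) (M : ℕ), Num Em σ τ δ K N r M →
  ∀ D : Disc Em σ τ δ K N,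
  ∀ k n, 0 ≤ k → k < K → -N < n → n < N → (k + n) % 2 = 1 →
    ChainOK Complex.I (vtx σ D.eta k n) ((vtx σ D.eta k n + D.hC k n) / 2) (D.hC k n)
      ((D.hC k n + vtx σ D.eta (k + 1) n) / 2) (vtx σ D.eta (k + 1) n)
      (D.fC k n) (D.j1 k n) (D.j1 (k + 1) n) M r (if D.gC k n then r else 0) ∧
    ‖(vtx σ D.eta k n + D.hC k n) / 2 - vtx σ D.eta k n‖ +
      ‖D.hC k n - (vtx σ D.eta k n + D.hC k n) / 2‖ +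
      ‖(D.hC k n + vtx σ D.eta (k + 1) n) / 2 - D.hC k n‖ +
      ‖vtx σ D.eta (k + 1) n - (D.hC k n + vtx σ D.eta (k + 1) n) / 2‖ ≤ σ ∧
    (∀ i, i ≤ 2 * M + 4 → ‖nC D r M k n i - zt σ k n‖ ≤ 3 * D.eta k n * σ ∧
      0 < (nC D r M k n i).im ∧ (nC D r M k n i).im < 1) ∧
    (∀ i, i < 2 * M + 4 → ∀ x ∈ segment ℝ (nC D r M k n i) (nC D r M k n (i + 1)),
      |x.re - σ * n| ≤ 30 * τ * (x.im - (vtx σ D.eta k n).im) ∧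
      |x.re - σ * n| ≤ 30 * τ * ((vtx σ D.eta (k + 1) n).im - x.im))

/-- leaf edges -/
abbrev EL (K N : ℤ) : Type := ↥(Finset.Icc (0 : ℤ) K ×ˢ Finset.Ico (-N) N)

/-- cut edges -/
abbrev EC (K N : ℤ) : Type :=
  ↥((Finset.Ico (0 : ℤ) K ×ˢ Finset.Ioo (-N) N).filter (fun p => (p.1 + p.2) % 2 = 1))

/-- nodes -/
noncomputable def nE {Em σ τ δ : ℝ} {K N : ℤ} (D : Disc Em σ τ δ K N) (r : ℝ) (M : ℕ) :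
    EL K N ⊕ EC K N → ℕ → ℂ :=
  Sum.elim (fun p => nL D r M p.1.1 p.1.2) (fun p => nC D r M p.1.1 p.1.2)

/-- start vertex -/
def sE {K N : ℤ} : EL K N ⊕ EC K N → ℤ × ℤ := Sum.elim (fun p => p.1) (fun p => p.1)

/-- end vertex -/
def tE {K N : ℤ} : EL K N ⊕ EC K N → ℤ × ℤ :=
  Sum.elim (fun p => (p.1.1, p.1.2 + 1)) (fun p => (p.1.1 + 1, p.1.2))

/-- H-PLAN (planarity) -/
def SpecPlan : Prop := ∀ (Em σ τ δ : ℝ) (K N : ℤ) (r : ℝ) (M : ℕ), Num Em σ τ δ K N r M →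
  ∀ D : Disc Em σ τ δ K N,
  (∀ k k' n, 0 ≤ k → k < k' → k' ≤ K → -N ≤ n → n ≤ N →
    (vtx σ D.eta k n).im < (vtx σ D.eta k' n).im) ∧
  ∀ e e' : EL K N ⊕ EC K N, e ≠ e' → ∀ i i', i < 2 * M + 4 → i' < 2 * M + 4 →
    ∀ x ∈ segment ℝ (nE D r M e i) (nE D r M e (i + 1)),
      x ∈ segment ℝ (nE D r M e' i') (nE D r M e' (i' + 1)) →
      ∃ q : ℤ × ℤ, x = vtx σ D.eta q.1 q.2 ∧ (q = sE e ∨ q = tE e) ∧ (q = sE e' ∨ q = tE e')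

/-- H-KIR: Kirchhoff for the pattern of leaf and cut edges -/
def SpecKir : Prop := ∀ (K N : ℤ) (X : ℝ) (v : ℤ → ℤ → ℂ) (a : ℤ → ℤ → ℂ) (w : ℂ), 1 ≤ K → 1 ≤ N →
  (∀ k n, (k + n) % 2 = 0 → a k n = a k (n - 1)) → (∀ k n, k < 0 → a k n = 0) →
  (∀ k n, K ≤ k → a k n = w) →
  (∀ k n k' n', 0 ≤ k → k ≤ K → -N ≤ n → n ≤ N → 0 ≤ k' → k' ≤ K → -N ≤ n' → n' ≤ N →
    v k n = v k' n' → k = k' ∧ n = n') →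
  (∀ k n, 0 ≤ k → k ≤ K → -N ≤ n → n ≤ N → |(v k n).re| < X → -N < n ∧ n < N) →
  ∀ P : ℂ, |P.re| < X →
    ∑ p : EL K N, (if v p.1.1 p.1.2 = P then a p.1.1 p.1.2 - a (p.1.1 - 1) p.1.2 else 0) +
      ∑ p : EC K N, (if v p.1.1 p.1.2 = P then a p.1.1 (p.1.2 - 1) - a p.1.1 p.1.2 else 0) =
    ∑ p : EL K N, (if v p.1.1 (p.1.2 + 1) = P then a p.1.1 p.1.2 - a (p.1.1 - 1) p.1.2 else 0) +
      ∑ p : EC K N, (if v (p.1.1 + 1) p.1.2 = P then a p.1.1 (p.1.2 - 1) - a p.1.1 p.1.2 else 0)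

/-- H-TELE: telescoping sums on a vertical line -/
def SpecTele : Prop := ∀ (K : ℤ) (g : ℤ → ℂ) (y : ℤ → ℝ) (t : ℝ), 0 ≤ K →
  (∀ k k', 0 ≤ k → k < k' → k' ≤ K → y k < y k') →
  (∑ k ∈ Finset.Icc 0 K, (g k - g (k - 1)) = g K - g (-1)) ∧
  ((∑ k ∈ Finset.Icc 0 K, (if y k ≤ t then g k - g (k - 1) else 0) = 0) ∨
   (∑ k ∈ Finset.Icc 0 K, (if y k ≤ t then g k - g (k - 1) else 0) = g K - g (-1)) ∨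
   ∃ k, 0 ≤ k ∧ k < K ∧ y k ≤ t ∧ t ≤ y (k + 1) ∧
     ∑ k ∈ Finset.Icc 0 K, (if y k ≤ t then g k - g (k - 1) else 0) = g k - g (-1))

/-! ### estimates -/

section est

variable {L δ : ℝ}

/-- local aspect `η` -/
noncomputable def etaF (Φ : Fields L δ) (z : ℂ) : ℝ := 3 + 200 * ‖fderiv ℝ Φ.F z‖

/-- local amplitude `p` -/
noncomputable def ppF (Φ : Fields L δ) (p0 : ℝ) (z : ℂ) : ℝ :=
  p0 + 200 * ‖om Φ.V Φ.c Φ.F z‖ / etaF Φ z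

structure Loc (Φ : Fields L δ) (p0 ρ ε : ℝ) : Prop where
  eta : ∀ z ∈ K L, ∀ z' ∈ K L, ‖z' - z‖ ≤ ρ → |etaF Φ z' - etaF Φ z| ≤ ε
  p : ∀ z ∈ K L, ∀ z' ∈ K L, ‖z' - z‖ ≤ ρ → |ppF Φ p0 z' - ppF Φ p0 z| ≤ ε * p0
  dV : ∀ z ∈ K L, ∀ z' ∈ K L, ‖z' - z‖ ≤ ρ → ‖dz Φ.V z' - dz Φ.V z‖ ≤ ε * p0
  dbV : ∀ z ∈ K L, ∀ z' ∈ K L, ‖z' - z‖ ≤ ρ → ‖dzb Φ.V z'‖ ≤ ‖dzb Φ.V z‖ + ε * p0
  F : ∀ z ∈ K L, ∀ z' ∈ K L, ‖z' - z‖ ≤ ρ → ‖Φ.F z' - Φ.F z‖ ≤ (etaF Φ z / 200 + ε) * ‖z' - z‖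
  c : ∀ z ∈ K L, ∀ z' ∈ K L, ‖z' - z‖ ≤ ρ →
    ‖Φ.c z' - Φ.c z - Φ.F z * (dz Φ.V z' - dz Φ.V z)‖ ≤
      (ppF Φ p0 z * etaF Φ z / 200 + ε * p0) * ‖z' - z‖
  V : ∀ z ∈ K L, ∀ z' ∈ K L, ‖z' - z‖ ≤ ρ →
    ‖Φ.V z' - Φ.V z - dz Φ.V z * (z' - z)‖ ≤ (‖dzb Φ.V z‖ + ε * p0) * ‖z' - z‖

/-- face data of a tile with centre `z` and index `m` -/
noncomputable def ta (Φ : Fields L δ) (p0 : ℝ) (z : ℂ) (m : ℤ) : ℂ :=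
  dz Φ.V z + ppF Φ p0 z * al (etaF Φ z) m
noncomputable def tb (Φ : Fields L δ) (p0 σ : ℝ) (z : ℂ) (m : ℤ) : ℂ :=
  Φ.V z - dz Φ.V z * z - ppF Φ p0 z * al (etaF Φ z) m * (z + σ * en (etaF Φ z) m)
noncomputable def tc (Φ : Fields L δ) (p0 : ℝ) (z : ℂ) (m : ℤ) : ℂ :=
  Φ.c z + ppF Φ p0 z * al (etaF Φ z) m * Φ.F z

end est

/-- H-LOC -/
def SpecLoc : Prop := ∀ (L δ : ℝ) (Φ : Fields L δ),
  (∀ p0 ε : ℝ, 0 < p0 → 0 < ε → ∃ ρ > 0, Loc Φ p0 ρ ε) ∧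
  (Continuous (etaF Φ) ∧ Continuous (dz Φ.V) ∧ Continuous (dzb Φ.V) ∧
    Continuous (om Φ.V Φ.c Φ.F)) ∧
  (∃ ρ > 0, ∀ z ∈ K L, DifferentiableOn ℂ Φ.V (Metric.ball z ρ) ∨
    ∃ f0 k0 : ℂ, ∀ ζ ∈ Metric.ball z ρ, Φ.F ζ = f0 ∧ Φ.c ζ = f0 * dz Φ.V ζ + k0)

/-- H-RIEM: Riemann sums -/
def SpecRiem : Prop := ∀ (L : ℝ) (g : ℂ → ℝ), 0 ≤ L → Continuous g → (∀ z, 0 ≤ g z) →
  ∀ ε : ℝ, 0 < ε → ∃ σ0 > 0, ∀ (σ : ℝ) (K' N : ℤ), 0 < σ → σ ≤ σ0 → 0 ≤ K' → σ * K' ≤ 15 / 8 →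
    0 ≤ N → σ * N ≤ L + 1 →
    ∑ k ∈ Finset.Icc 0 K', ∑ n ∈ Finset.Icc (-N) N, σ ^ 2 / 2 * g (zt σ k n) ≤
      (∫ z in K L, g z) + ε

/-- H-MODEL: algebra of the medium -/
def SpecModel : Prop :=
  (∀ η η' : ℝ, 3 ≤ η → 3 ≤ η' → ∀ n : ℤ, ‖al η n‖ ≤ 1 ∧ ‖al η' n - al η n‖ ≤ |η' - η| / 18 ∧
    ‖en η n‖ ≤ η ∧ ‖en η' n - en η n‖ ≤ |η' - η| ∧ ‖P1 η n‖ ≤ η ∧ ‖P2 η n‖ ≤ η ∧
    ‖P1 η' n - P1 η n‖ ≤ |η' - η| ∧ ‖P2 η' n - P2 η n‖ ≤ |η' - η| ∧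
    1 / 2 ≤ ‖al η n - al η (n + 1)‖ ∧ ‖al η n - al η (n + 1)‖ ≤ 2 ∧
    1 / 2 ≤ ‖2 * al η n‖ ∧ ‖2 * al η n‖ ≤ 2) ∧
  (∀ (η σ : ℝ) (k n : ℤ) (z : ℂ), 3 ≤ η →
    ((k + n) % 2 = 0 → al η n * (z - zt σ k n - σ * en η n) -
        al η (n + 1) * (z - zt σ (k - 1) (n + 1) - σ * en η (n + 1)) =
      (al η n - al η (n + 1)) * (z - (zt σ k n + σ * P1 η n))) ∧
    ((k + n) % 2 = 1 → al η (n + 1) * (z - zt σ k (n + 1) - σ * en η (n + 1)) -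
        al η n * (z - zt σ (k - 1) n - σ * en η n) =
      (al η (n + 1) - al η n) * (z - (zt σ k n + σ * P2 η n))) ∧
    (al η (n - 1) * (z - zt σ k (n - 1) - σ * en η (n - 1)) -
        al η (n + 1) * (z - zt σ k (n + 1) - σ * en η (n + 1)) =
      2 * al η (n - 1) * (z - (zt σ k n + σ * en η (n + 1)))))

/-- H-EDGE: one edge between the tiles `(z1, m1)` and `(z2, m2)`, base point `z0` -/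
def SpecEdge : Prop := ∀ (L δ : ℝ) (Φ : Fields L δ) (p0 ρ ε σ : ℝ), 0 < p0 → 0 < ε → ε ≤ 1 / 400 →
  0 < σ → 4 * σ ≤ ρ → Loc Φ p0 ρ ε →
  ∀ (z0 z1 z2 hr Dl : ℂ) (m1 m2 : ℤ), z0 ∈ K L → z1 ∈ K L → z2 ∈ K L →
    ‖z1 - z0‖ ≤ 2 * σ → ‖z2 - z0‖ ≤ 2 * σ → ‖z1 - z2‖ ≤ 2 * σ →
    (∀ z : ℂ, al (etaF Φ z0) m1 * (z - z1 - σ * en (etaF Φ z0) m1) -
      al (etaF Φ z0) m2 * (z - z2 - σ * en (etaF Φ z0) m2) = Dl * (z - hr)) →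
    1 / 2 ≤ ‖Dl‖ → ‖Dl‖ ≤ 2 → ‖hr - z0‖ ≤ etaF Φ z0 * σ →
    (∀ x : ℂ, ‖x - z0‖ ≤ 3 * etaF Φ z0 * σ →
      ‖(ta Φ p0 z1 m1 - ta Φ p0 z2 m2) * x + (tb Φ p0 σ z1 m1 - tb Φ p0 σ z2 m2)‖ ≤
        σ * (2 * ‖dzb Φ.V z0‖ + 10 * ppF Φ p0 z0 * etaF Φ z0)) ∧
    (dzb Φ.V z0 = 0 → ta Φ p0 z1 m1 - ta Φ p0 z2 m2 ≠ 0 ∧
      (∀ h : ℂ, (ta Φ p0 z1 m1 - ta Φ p0 z2 m2) * h + (tb Φ p0 σ z1 m1 - tb Φ p0 σ z2 m2) = 0 →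
        ‖h - hr‖ ≤ 40 * ε * etaF Φ z0 * σ) ∧
      (∀ f : ℂ, f * (ta Φ p0 z1 m1 - ta Φ p0 z2 m2) = tc Φ p0 z1 m1 - tc Φ p0 z2 m2 →
        ‖f - Φ.F z1‖ ≤ etaF Φ z0 / 40 * ‖z1 - z2‖ ∧ ‖f - Φ.F z2‖ ≤ etaF Φ z0 / 40 * ‖z1 - z2‖))

end H
end MP1707
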