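import Pool.Agent.Lib.MP_1707ab_an.N2.Defs

/-!
# MP_1707ab_an, n = 2, PART M (existence of the macroscopic fields): exact Specs of the modules

Text: /team-store/MP_1707ab_an_M.md.  File of a module: `N2/M/<Name>.lean`,
theorem `MP1707.spec<Name> (hyps : other Specs) : Spec<Name>`.
-/

set_option autoImplicit false

open scoped Topology BigOperators Classical ContDiff
open MeasureTheory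

namespace MP1707

/-! ## M.1 the envelope -/

/-- ENV -/
def SpecEnv : Prop := ∀ L e0 : ℝ, 1 ≤ L → 0 < e0 → ∃ g : ℂ → ℂ, Differentiable ℂ g ∧
  (∀ z : ℂ, |z.re| ≤ L + 3 → |z.im| ≤ 1 / 4 → ‖g z‖ ≤ e0 ∧ ‖deriv g z‖ ≤ e0) ∧
  (∀ z : ℂ, |z.re| ≤ L + 3 → |z.im - 1| ≤ 1 / 4 → ‖g z - 1‖ ≤ e0 ∧ ‖deriv g z‖ ≤ e0)

/-- envelope with bounds -/
def IsEnv (L e0 H0 : ℝ) (g : ℂ → ℂ) : Prop := Differentiable ℂ g ∧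
  (∀ z : ℂ, |z.re| ≤ L + 3 → |z.im| ≤ 2 → ‖g z‖ ≤ H0 ∧ ‖deriv g z‖ ≤ H0 ∧ ‖deriv (deriv g) z‖ ≤ H0 ∧
    ‖deriv (deriv (deriv g)) z‖ ≤ H0) ∧
  (∀ z : ℂ, |z.re| ≤ L + 3 → |z.im| ≤ 1 / 4 → ‖g z‖ ≤ e0 ∧ ‖deriv g z‖ ≤ e0) ∧
  (∀ z : ℂ, |z.re| ≤ L + 3 → |z.im - 1| ≤ 1 / 4 → ‖g z - 1‖ ≤ e0 ∧ ‖deriv g z‖ ≤ e0)

/-! ## M.2 elliptic functions -/

/-- ZETA: the Weierstrass zeta function -/
def SpecZeta : Prop := ∀ Λ : PeriodPair, ∃ ζ : ℂ → ℂ,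
  (∀ z ∉ Λ.lattice, HasDerivAt ζ (-(Λ.weierstrassP z)) z) ∧
  (∀ p ∈ Λ.lattice, ∃ h : ℂ → ℂ, AnalyticAt ℂ h p ∧ ∀ᶠ z in 𝓝[≠] p, ζ z = 1 / (z - p) + h z)

/-- HEX: the hexagonal lattice -/
def SpecHex : Prop := ∃ Λ : PeriodPair, Λ.g₂ = 0 ∧ Λ.g₃ ≠ 0

structure EllData where
  Λ : PeriodPair
  g2 : Λ.g₂ = 0
  s : ℂ
  hs : s ≠ 0
  hs2 : s ^ 2 = -Λ.g₃
  ζ : ℂ → ℂ
  hζ : ∀ z ∉ Λ.lattice, HasDerivAt ζ (-(Λ.weierstrassP z)) z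
  hζp : ∀ p ∈ Λ.lattice, ∃ h : ℂ → ℂ, AnalyticAt ℂ h p ∧ ∀ᶠ z in 𝓝[≠] p, ζ z = 1 / (z - p) + h z

namespace EllData

variable (D : EllData)

/-- `℘` -/
noncomputable def P (z : ℂ) : ℂ := D.Λ.weierstrassP z
/-- `℘'` -/
noncomputable def Q (z : ℂ) : ℂ := D.Λ.derivWeierstrassP z
/-- `m = 7 - 4√3` -/
noncomputable def mm : ℂ := ((7 - 4 * Real.sqrt 3 : ℝ) : ℂ)
/-- `u = -(4 - 2√3) s` -/
noncomputable def u : ℂ := -((4 - 2 * Real.sqrt 3 : ℝ) : ℂ) * D.s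
/-- `κ = 2/√3` -/
noncomputable def κ : ℂ := ((2 / Real.sqrt 3 : ℝ) : ℂ)
noncomputable def φ : ℂ := -κ * D.u
noncomputable def Y (z : ℂ) : ℂ := D.Q z - D.s
noncomputable def U (z : ℂ) : ℂ := D.Y z - D.u
noncomputable def U1 (z : ℂ) : ℂ := 6 * D.P z ^ 2
noncomputable def G (z : ℂ) : ℂ := -D.P z / (2 * D.s * D.Y z)
noncomputable def G1 (z : ℂ) : ℂ := 1 / (4 * D.s) + 1 / D.Y z
noncomputable def v (z : ℂ) : ℂ := -(1 - mm) * D.ζ z + 2 * mm * D.P z ^ 2 / D.Y z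
noncomputable def v1 (z : ℂ) : ℂ := D.P z + D.u ^ 2 * D.G z
noncomputable def v2 (z : ℂ) : ℂ := D.U z ^ 2 / D.Y z
/-- masses: lattice points and the points with `℘' = s` -/
def Z : Set ℂ := {z | z ∈ D.Λ.lattice ∨ D.Y z = 0}
/-- the constants `f̂` at the masses -/
noncomputable def fh (p : ℂ) : ℂ := if p ∈ D.Λ.lattice then 0 else -κ / D.u

end EllData

/-- ELL0 -/
def SpecEll0 : Prop := Nonempty EllData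

/-- ODE (note: a point of the lattice has `℘' = 0 ≠ s`, so `Z` is a disjoint union) -/
def SpecODE : Prop := ∀ D : EllData, ∀ z ∉ D.Λ.lattice,
  HasDerivAt D.P (D.Q z) z ∧ HasDerivAt D.Q (6 * D.P z ^ 2) z ∧ D.Q z ^ 2 = 4 * D.P z ^ 3 + D.s ^ 2

/-- ALG: derivatives and identities -/
def SpecAlg : Prop := ∀ D : EllData,
  (∀ z ∉ D.Z, HasDerivAt D.v (D.v1 z) z ∧ HasDerivAt D.v1 (D.v2 z) z ∧ HasDerivAt D.G (D.G1 z) z ∧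
    HasDerivAt D.U (D.U1 z) z ∧
    D.U z * (1 + D.φ * D.G1 z) = EllData.κ * D.v2 z ∧
    1 + D.φ * D.G1 z = EllData.κ * D.U z / D.Y z) ∧
  D.u ≠ 0 ∧ (∀ p, p ∉ D.Λ.lattice → D.φ * D.G p - D.fh p * D.v1 p = -(D.fh p) * D.P p)

/-- ZSET -/
def SpecZset : Prop := ∀ D : EllData, D.Z.Nonempty ∧ IsClosed D.Z ∧
  (∀ z ∈ D.Z, ∀ p ∈ D.Λ.lattice, z + p ∈ D.Z) ∧
  ∃ d : ℝ, 0 < d ∧ ∀ p ∈ D.Z, ∀ q ∈ D.Z, p ≠ q → d ≤ ‖p - q‖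

/-- NEARE: uniform behaviour near the masses -/
def SpecNearE : Prop := ∀ D : EllData, ∃ C d : ℝ, 0 < C ∧ 0 < d ∧ ∀ p ∈ D.Z, ∀ w : ℂ,
  0 < ‖w - p‖ → ‖w - p‖ ≤ d →
    w ∉ D.Z ∧ 1 / C ≤ ‖D.U w‖ ∧ ‖EllData.κ / D.U w - D.fh p‖ ≤ C * ‖w - p‖ ∧
    ‖D.φ * D.G w - D.fh p * D.v1 w‖ ≤ C * ‖w - p‖ ∧
    ∀ w' : ℂ, ‖w - p‖ ≤ ‖w' - p‖ → ‖w' - p‖ ≤ d → ‖D.v w - D.v w'‖ ≤ C / ‖w - p‖

/-- FARE: growth away from the masses -/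
def SpecFarE : Prop := ∀ D : EllData, ∃ C : ℝ, 0 < C ∧ ∀ r : ℝ, 0 < r → ∃ Cr : ℝ, 0 < Cr ∧
  ∀ w : ℂ, r ≤ Metric.infDist w D.Z →
    ‖D.v w‖ ≤ Cr + C * ‖w‖ ∧ ‖D.v1 w‖ ≤ Cr ∧ ‖D.v2 w‖ ≤ Cr ∧ ‖D.G w‖ ≤ Cr ∧ ‖D.G1 w‖ ≤ Cr

/-- AREAE: areas -/
def SpecAreaE : Prop := ∀ D : EllData, ∃ C : ℝ, 0 < C ∧
  (∀ ε R : ℝ, 0 < ε → ε ≤ 1 / C → 1 ≤ R →
    volume {w : ℂ | ‖w‖ ≤ R ∧ w ∉ D.Z ∧ ‖D.U w‖ < ε} ≤ ENNReal.ofReal (C * ε ^ 2 * R ^ 2)) ∧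
  (∀ r R : ℝ, 0 < r → r ≤ 1 / C → 1 ≤ R →
    volume {w : ℂ | ‖w‖ ≤ R ∧ Metric.infDist w D.Z ≤ r} ≤ ENNReal.ofReal (C * r ^ 2 * R ^ 2))

/-- The cell: everything that is needed from the elliptic functions. -/
structure Cell where
  Z : Set ℂ
  d0 : ℝ
  C : ℝ
  fh : ℂ → ℂ
  v : ℂ → ℂ
  v1 : ℂ → ℂ
  v2 : ℂ → ℂ
  G : ℂ → ℂ
  G1 : ℂ → ℂ
  U : ℂ → ℂ
  U1 : ℂ → ℂ
  κ : ℂ
  φ : ℂ
  hd0 : 0 < d0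
  hC : 1 ≤ C
  ne : Z.Nonempty
  closed : IsClosed Z
  sep : ∀ p ∈ Z, ∀ q ∈ Z, p ≠ q → 4 * d0 ≤ ‖p - q‖
  fhb : ∀ p, ‖fh p‖ ≤ C
  κb : ‖κ‖ ≤ C
  φb : ‖φ‖ ≤ C
  dv : ∀ z ∉ Z, HasDerivAt v (v1 z) z
  dv1 : ∀ z ∉ Z, HasDerivAt v1 (v2 z) z
  dG : ∀ z ∉ Z, HasDerivAt G (G1 z) z
  dU : ∀ z ∉ Z, HasDerivAt U (U1 z) z
  ident : ∀ z ∉ Z, U z * (1 + φ * G1 z) = κ * v2 z
  small1 : ∀ z ∉ Z, ‖U z‖ ≤ 1 / C → ‖1 + φ * G1 z‖ ≤ C * ‖U z‖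
  small2 : ∀ z ∉ Z, ‖U z‖ ≤ 1 / C → ‖v2 z‖ ≤ C * ‖U z‖ ^ 2
  grad : ∀ z ∉ Z, ‖U1 z‖ ≤ C * (1 + ‖U z‖) ^ 2
  near0 : ∀ p ∈ Z, ∀ w : ℂ, 0 < ‖w - p‖ → ‖w - p‖ ≤ 2 * d0 →
    1 / C ≤ ‖U w‖ ∧ ‖κ / U w - fh p‖ ≤ C * ‖w - p‖ ∧ ‖φ * G w - fh p * v1 w‖ ≤ C * ‖w - p‖
  nearv : ∀ p ∈ Z, ∀ w : ℂ, 0 < ‖w - p‖ → ‖w - p‖ ≤ d0 → ‖v w - v (p + d0)‖ ≤ C / ‖w - p‖
  far : ∀ r : ℝ, 0 < r → ∃ Cr : ℝ, 0 < Cr ∧ ∀ w : ℂ, r ≤ Metric.infDist w Z →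
    ‖v w‖ ≤ Cr + C * ‖w‖ ∧ ‖v1 w‖ ≤ Cr ∧ ‖v2 w‖ ≤ Cr ∧ ‖G w‖ ≤ Cr ∧ ‖G1 w‖ ≤ Cr
  areaU : ∀ ε R : ℝ, 0 < ε → ε ≤ 1 / C → 1 ≤ R →
    volume {w : ℂ | ‖w‖ ≤ R ∧ w ∉ Z ∧ ‖U w‖ < ε} ≤ ENNReal.ofReal (C * ε ^ 2 * R ^ 2)
  areaZ : ∀ r R : ℝ, 0 < r → r ≤ 1 / C → 1 ≤ R →
    volume {w : ℂ | ‖w‖ ≤ R ∧ Metric.infDist w Z ≤ r} ≤ ENNReal.ofReal (C * r ^ 2 * R ^ 2)

/-- CELL: `SpecEll0 → SpecODE → SpecAlg → SpecZset → SpecNearE → SpecFarE → SpecAreaE → SpecCell` -/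
def SpecCell : Prop := Nonempty Cell

/-! ## M.3 the fields -/

/-- smooth cutoff, `0` for `t ≤ 1`, `1` for `t ≥ 2` -/
noncomputable def chi (t : ℝ) : ℝ := Real.smoothTransition (t - 1)

/-- `1/u` cut off near `0` -/
noncomputable def psi (ε : ℝ) (u : ℂ) : ℂ :=
  if ε ≤ ‖u‖ then u⁻¹ else (starRingEnd ℂ u) * ((2 * ε ^ 2 - ‖u‖ ^ 2 : ℝ) : ℂ) / ((ε ^ 4 : ℝ) : ℂ)

noncomputable def chi1 (l y : ℝ) : ℝ :=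
  Real.smoothTransition ((y - 1 / 8) / l) * Real.smoothTransition ((7 / 8 - y) / l)

noncomputable def chi3 (y : ℝ) : ℝ :=
  Real.smoothTransition (64 * (y - 1 / 16)) * Real.smoothTransition (64 * (15 / 16 - y))

noncomputable def chib (y : ℝ) : ℝ := Real.smoothTransition (32 * (y - 3 / 32))

noncomputable def chit (y : ℝ) : ℝ := Real.smoothTransition (32 * (29 / 32 - y))

/-- `g` in the middle, `0` near the bottom, `1` near the top -/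
noncomputable def gw (g : ℂ → ℂ) (z : ℂ) : ℂ :=
  (chib z.im : ℂ) * (chit z.im : ℂ) * g z + (1 - (chit z.im : ℂ))

namespace Cell

variable (D : Cell)

noncomputable def th (r : ℝ) (w : ℂ) : ℝ := chi (Metric.infDist w D.Z / r)

noncomputable def th2 (r : ℝ) (w : ℂ) : ℝ := chi (4 * Metric.infDist w D.Z / r)

/-- the mass near `w` -/
noncomputable def near (w : ℂ) : ℂ := if h : ∃ p ∈ D.Z, ‖w - p‖ < 2 * D.d0 then h.choose else 0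

/-- smoothed `v` -/
noncomputable def vs (r : ℝ) (w : ℂ) : ℂ :=
  (D.th2 r w : ℂ) * D.v w + (1 - (D.th2 r w : ℂ)) * D.v (D.near w + D.d0)

noncomputable def VV (g : ℂ → ℂ) (A r l : ℝ) (z : ℂ) : ℂ :=
  (l / A : ℂ) * deriv g z * D.vs r (z / l) * (chi3 z.im : ℂ)

noncomputable def Fj (A l : ℝ) (w : ℂ) : ℂ :=
  (chi1 l (l * (D.near w).im) : ℂ) * (l * A) * D.fh (D.near w)

/-- the field `F` away from the masses -/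
noncomputable def Fs (A ε l : ℝ) (z : ℂ) : ℂ :=
  (chi1 l z.im : ℂ) * (l * A) * (D.κ * psi ε (D.U (z / l)))

/-- the field `c` away from the masses -/
noncomputable def Cs (g : ℂ → ℂ) (l : ℝ) (z : ℂ) : ℂ :=
  gw g z + (chi1 l z.im : ℂ) * l * deriv g z * (D.φ * D.G (z / l))

noncomputable def FF (A ε r l : ℝ) (z : ℂ) : ℂ :=
  (D.th r (z / l) : ℂ) * D.Fs A ε l z + (1 - (D.th r (z / l) : ℂ)) * D.Fj A l (z / l)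

noncomputable def CC (g : ℂ → ℂ) (A r l : ℝ) (z : ℂ) : ℂ :=
  (D.th r (z / l) : ℂ) * D.Cs g l z +
    (1 - (D.th r (z / l) : ℂ)) * (gw g (l * D.near (z / l)) + D.Fj A l (z / l) * dz (D.VV g A r l) z)

/-- distance to the masses, in the scaled variable -/
noncomputable def ρ (l : ℝ) (z : ℂ) : ℝ := Metric.infDist (z / l) D.Z

end Cell

/-- PSI -/
def SpecPsi : Prop := ∀ ε : ℝ, 0 < ε → ContDiff ℝ 1 (psi ε) ∧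
  (∀ u : ℂ, ‖psi ε u‖ ≤ 2 / ε) ∧ (∀ u : ℂ, ‖psi ε u‖ * ‖u‖ ≤ 2) ∧
  (∀ u : ℂ, ‖fderiv ℝ (psi ε) u‖ ≤ 4 / (max ε ‖u‖) ^ 2)

/-- CUT: the cutoffs `th`, `th2`, `near` -/
def SpecCut : Prop := ∃ B : ℝ, 0 < B ∧ (∀ t, |deriv Real.smoothTransition t| ≤ B) ∧ ∀ (D : Cell) (r : ℝ),
  0 < r → r ≤ D.d0 / 4 →
  ContDiff ℝ ∞ (D.th r) ∧ ContDiff ℝ ∞ (D.th2 r) ∧
  (∀ w, 0 ≤ D.th r w ∧ D.th r w ≤ 1 ∧ 0 ≤ D.th2 r w ∧ D.th2 r w ≤ 1) ∧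
  (∀ w, Metric.infDist w D.Z ≤ r → D.th r w = 0) ∧ (∀ w, 2 * r ≤ Metric.infDist w D.Z → D.th r w = 1) ∧
  (∀ w, Metric.infDist w D.Z ≤ r / 4 → D.th2 r w = 0) ∧
  (∀ w, r / 2 ≤ Metric.infDist w D.Z → D.th2 r w = 1) ∧
  (∀ w, ‖fderiv ℝ (D.th r) w‖ ≤ B / r ∧ ‖fderiv ℝ (D.th2 r) w‖ ≤ 4 * B / r) ∧
  (∀ p ∈ D.Z, ∀ w : ℂ, ‖w - p‖ < 2 * D.d0 → D.near w = p ∧ Metric.infDist w D.Z = ‖w - p‖) ∧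
  (∀ w, Metric.infDist w D.Z < 2 * D.d0 → ∃ p ∈ D.Z, ‖w - p‖ < 2 * D.d0)

/-- SM: smoothness of the fields -/
def SpecSm : Prop := ∀ (D : Cell) (g : ℂ → ℂ) (A ε r l : ℝ), Differentiable ℂ g → 1 ≤ A → 0 < ε →
  ε ≤ 1 / D.C → 0 < r → r ≤ D.d0 / 4 → 0 < l →
  ContDiff ℝ 2 (D.VV g A r l) ∧ ContDiff ℝ 1 (D.FF A ε r l) ∧ ContDiff ℝ 1 (D.CC g A r l)

/-- common quantifier prefix: `C` depends only on the cell, `C₂`, `l₀` on everything except `l`. -/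
def Pre (Φ : (D : Cell) → (C L e0 H0 : ℝ) → (g : ℂ → ℂ) → (A ε r C2 l : ℝ) → ℂ → Prop) : Prop :=
  ∀ D : Cell, ∃ C : ℝ, 1 ≤ C ∧ ∀ (L e0 H0 : ℝ) (g : ℂ → ℂ), IsEnv L e0 H0 g → 1 ≤ L → 1 ≤ H0 →
    0 < e0 → e0 ≤ 1 → ∀ A ε r : ℝ, 1 ≤ A → 0 < ε → ε ≤ 1 / C → 0 < r → r ≤ 1 / C →
    ∃ C2 l0 : ℝ, 0 < C2 ∧ 0 < l0 ∧ ∀ l : ℝ, 0 < l → l ≤ l0 → ∀ z ∈ K L,
      Φ D C L e0 H0 g A ε r C2 l z

/-- LOC (F1) -/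
def SpecLoc : Prop := Pre fun D _ _ _ _ g A ε r _ l z =>
  (∃ t > 0, DifferentiableOn ℂ (D.VV g A r l) (Metric.ball z t)) ∨
  (∃ t > 0, ∃ f0 k0 : ℂ, ∀ ζ ∈ Metric.ball z t,
    D.FF A ε r l ζ = f0 ∧ D.CC g A r l ζ = f0 * dz (D.VV g A r l) ζ + k0)

/-- WALL (F2), (F3) -/
def SpecWall : Prop := Pre fun D C L _ H0 g A ε r C2 l z =>
  (z.im < 1 / 16 → D.VV g A r l z = 0 ∧ D.FF A ε r l z = 0 ∧ D.CC g A r l z = 0) ∧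
  (15 / 16 < z.im → D.VV g A r l z = 0 ∧ D.FF A ε r l z = 0 ∧ D.CC g A r l z = 1) ∧
  ‖D.FF A ε r l z‖ ≤ C2 * l ∧ ‖D.VV g A r l z‖ ≤ C * H0 * L / A + C2 * l

/-- VDER: derivatives of `V` where it is holomorphic -/
def SpecVder : Prop := ∀ (D : Cell) (g : ℂ → ℂ) (A r l : ℝ), Differentiable ℂ g → 1 ≤ A →
  0 < r → r ≤ D.d0 / 4 → 0 < l → ∀ z : ℂ, r / 2 < D.ρ l z → 5 / 64 < z.im → z.im < 59 / 64 →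
  (∃ t > 0, DifferentiableOn ℂ (D.VV g A r l) (Metric.ball z t)) ∧ dzb (D.VV g A r l) z = 0 ∧
  (∀ᶠ ζ in 𝓝 z, dz (D.VV g A r l) ζ =
    (l / A : ℂ) * (deriv (deriv g) ζ * D.v (ζ / l) + deriv g ζ * D.v1 (ζ / l) / l)) ∧
  HasDerivAt (dz (D.VV g A r l))
    ((l / A : ℂ) * (deriv (deriv (deriv g)) z * D.v (z / l) + 2 * deriv (deriv g) z * D.v1 (z / l) / l +
      deriv g z * D.v2 (z / l) / l ^ 2)) z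

/-- PTA: crude global bounds, uniform in `l` -/
def SpecPtA : Prop := Pre fun D _ _ _ _ g A ε r C2 l z =>
  ‖om (D.VV g A r l) (D.CC g A r l) (D.FF A ε r l) z‖ ≤ C2 ∧ ‖fderiv ℝ (D.FF A ε r l) z‖ ≤ C2

/-- PTB: near the masses everything is exact -/
def SpecPtB : Prop := Pre fun D _ _ _ _ g A ε r _ l z =>
  D.ρ l z < r → om (D.VV g A r l) (D.CC g A r l) (D.FF A ε r l) z = 0 ∧ fderiv ℝ (D.FF A ε r l) z = 0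

/-- PTC: near the walls -/
def SpecPtC : Prop := Pre fun D C _ e0 _ g A ε r _ l z =>
  (z.im < 1 / 8 - 2 * l ∨ 7 / 8 + 2 * l < z.im) →
  ‖om (D.VV g A r l) (D.CC g A r l) (D.FF A ε r l) z‖ ≤ C * e0 ∧ fderiv ℝ (D.FF A ε r l) z = 0

/-- PTD: gradient of `F` in the middle -/
def SpecPtD : Prop := Pre fun D C _ _ _ _ A ε r _ l z =>
  1 / 8 + 2 * l < z.im → z.im < 7 / 8 - 2 * l →
  ‖fderiv ℝ (D.FF A ε r l) z‖ ≤ C * A / ε ^ 2 ∧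
  (D.ρ l z ≤ 2 * r → ‖fderiv ℝ (D.FF A ε r l) z‖ ≤ C * A)

/-- PTE: `ω` in the middle, away from the masses -/
def SpecPtE : Prop := Pre fun D C _ _ H0 g A ε r C2 l z =>
  1 / 8 + 2 * l < z.im → z.im < 7 / 8 - 2 * l → 2 * r < D.ρ l z →
  ‖om (D.VV g A r l) (D.CC g A r l) (D.FF A ε r l) z‖ ≤
    C2 * l + (if ‖D.U (z / l)‖ < ε then C * H0 * ε else 0)

/-- PTF: `ω` in the middle, in the annuli around the masses -/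
def SpecPtF : Prop := Pre fun D C L _ H0 g A ε r C2 l z =>
  1 / 8 + 2 * l < z.im → z.im < 7 / 8 - 2 * l → r ≤ D.ρ l z → D.ρ l z ≤ 2 * r →
  ‖om (D.VV g A r l) (D.CC g A r l) (D.FF A ε r l) z‖ ≤ C2 * l + C * H0 * L / r

/-- PTG: `∂̄V` -/
def SpecPtG : Prop := Pre fun D C L _ H0 g A _ r C2 l z =>
  ‖dzb (D.VV g A r l) z‖ ≤ C * H0 * L / A + C2 * l +
    (if r / 4 ≤ D.ρ l z ∧ D.ρ l z ≤ r / 2 then C * H0 / (A * r ^ 2) else 0)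

/-- COST (F4): `SpecPtA → … → SpecPtG → SpecVder → SpecSm → SpecCost` -/
def SpecCost : Prop := ∀ D : Cell, ∃ C : ℝ, 1 ≤ C ∧ ∀ (L e0 H0 : ℝ) (g : ℂ → ℂ), IsEnv L e0 H0 g →
  1 ≤ L → 1 ≤ H0 → 0 < e0 → e0 ≤ 1 → ∀ A ε r : ℝ, 1 ≤ A → 0 < ε → ε ≤ 1 / C → 0 < r → r ≤ 1 / C →
  ∃ C2 l0 : ℝ, 0 < C2 ∧ 0 < l0 ∧ ∀ l : ℝ, 0 < l → l ≤ l0 →
    ∫ z in K L, (‖om (D.VV g A r l) (D.CC g A r l) (D.FF A ε r l) z‖ + ‖dzb (D.VV g A r l) z‖) *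
      (1 + ‖fderiv ℝ (D.FF A ε r l) z‖) ≤
      C * L ^ 3 * (e0 + H0 / A + H0 * A * ε + H0 * A * r) + C2 * l

/-- MMAIN: assembly -/
def SpecMMain : Prop := SpecEnv → SpecCell → SpecSm → SpecLoc → SpecWall → SpecCost → SpecM

end MP1707
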